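import Pool.Agent.H586.AF.D

set_option autoImplicit false

/-!
# Schwinger-Dyson identity on a product of copies of a closed subgroup of `U(N)` (task AG-SD of helper586)

By helper663, adapted from the `SU(2)` case by helper862.
-/

open MeasureTheory Matrix Finset Filter Topology
open scoped Matrix.Norms.Frobenius

namespace Pool.Agent.H663.AG

open Pool.Agent.H586.AF.GG

theorem mt_inj {N : ℕ} {G : Subgroup (UU N)} {g h : G} (e : mt g = mt h) : g = h :=
  Subtype.ext (Subtype.ext e)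

theorem mt_mul {N : ℕ} {G : Subgroup (UU N)} (g h : G) : mt (g * h) = mt g * mt h := rfl

theorem mt_one {N : ℕ} {G : Subgroup (UU N)} : mt (1 : G) = 1 := rfl

theorem g_zero {N : ℕ} {G : Subgroup (UU N)} {T : Mt N} {γ : ℝ → G} (hγ : Grp T γ) : γ 0 = 1 := by
  apply mt_inj
  rw [hγ 0, zero_smul, NormedSpace.exp_zero, mt_one]

theorem g_add {N : ℕ} {G : Subgroup (UU N)} {T : Mt N} {γ : ℝ → G} (hγ : Grp T γ) (s t : ℝ) :
    γ (s + t) = γ s * γ t := by
  apply mt_inj
  rw [mt_mul, hγ, hγ, hγ, add_smul]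
  exact Matrix.exp_add_of_commute _ _ (((Commute.refl T).smul_left s).smul_right t)

theorem sh_zero {N : ℕ} {G : Subgroup (UU N)} {T : Mt N} {γ : ℝ → G} (hγ : Grp T γ) {Λ : Type}
    [DecidableEq Λ] (l : Λ) (σ : Λ → G) : sh γ l 0 σ = σ := by
  unfold sh
  rw [g_zero hγ, one_mul, Function.update_eq_self]

theorem sh_add {N : ℕ} {G : Subgroup (UU N)} {T : Mt N} {γ : ℝ → G} (hγ : Grp T γ) {Λ : Type}
    [DecidableEq Λ] (l : Λ) (s t : ℝ) (σ : Λ → G) :
    sh γ l (s + t) σ = sh γ l s (sh γ l t σ) := by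
  unfold sh
  rw [Function.update_self, Function.update_idem, g_add hγ, mul_assoc]

theorem mp_sh {N : ℕ} {G : Subgroup (UU N)} [MeasurableSpace G] [BorelSpace G] (μ : Measure G)
    [IsProbabilityMeasure μ] [μ.IsHaarMeasure] {Λ : Type} [Fintype Λ]
    [DecidableEq Λ] (l : Λ) (γ : ℝ → G) (t : ℝ) :
    MeasurePreserving (sh γ l t) (Measure.pi fun _ : Λ => μ) (Measure.pi fun _ : Λ => μ) := by
  have h : sh γ l t = fun (σ : Λ → G) i => (if i = l then (fun g : G => γ t * g) else id) (σ i) := by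
    funext σ i
    unfold sh
    by_cases hi : i = l
    · subst hi
      rw [Function.update_self, if_pos rfl]
    · rw [Function.update_of_ne hi, if_neg hi]
      rfl
  rw [h]
  refine measurePreserving_pi (fun _ : Λ => μ) (fun _ : Λ => μ) fun i => ?_
  split_ifs
  · exact measurePreserving_mul_left μ (γ t)
  · exact MeasurePreserving.id μ

theorem deriv_sh {N : ℕ} {G : Subgroup (UU N)} {T : Mt N} {γ : ℝ → G} {Λ : Type} [DecidableEq Λ]
    (l : Λ) (hγ : Grp T γ) (F F' : (Λ → G) → ℝ)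
    (h : ∀ σ, HasDerivAt (fun t => F (sh γ l t σ)) (F' σ) 0) (σ : Λ → G) (t₀ : ℝ) :
    HasDerivAt (fun t => F (sh γ l t σ)) (F' (sh γ l t₀ σ)) t₀ := by
  have h1 := h (sh γ l t₀ σ)
  have h2 : HasDerivAt (fun t => F (sh γ l (t - t₀) (sh γ l t₀ σ))) (F' (sh γ l t₀ σ)) t₀ := by
    have h3 : HasDerivAt (fun t => F (sh γ l t (sh γ l t₀ σ))) (F' (sh γ l t₀ σ)) (t₀ - t₀) := by
      rw [sub_self]
      exact h1
    exact h3.comp_sub_const t₀ t₀
  refine h2.congr_of_eventuallyEq (Eventually.of_forall fun t => ?_)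
  simp only []
  rw [← sh_add hγ, sub_add_cancel]

theorem tsd : S_SD := by
  intro N G _ _ hG μ _ _ Λ _ _ l T γ hγ β C F F' E E' hF hF' hE hE' hb dF dE
  have hC0 : 0 ≤ C := (abs_nonneg _).trans (hb (fun _ => 1)).1
  obtain ⟨P, hP⟩ : ∃ P : Measure (Λ → G), P = Measure.pi fun _ => μ := ⟨_, rfl⟩
  have hPp : IsProbabilityMeasure P := by rw [hP]; infer_instance
  rw [← hP]
  have hexp : ∀ σ, Real.exp (-(β * E σ)) ≤ Real.exp (|β| * C) := by
    intro σ
    refine Real.exp_le_exp.2 ?_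
    calc -(β * E σ) ≤ |β * E σ| := neg_le_abs _
      _ = |β| * |E σ| := abs_mul _ _
      _ ≤ |β| * C := mul_le_mul_of_nonneg_left (hb σ).2.2.1 (abs_nonneg β)
  have hmE : Measurable fun σ => Real.exp (-(β * E σ)) := (hE.const_mul β).neg.exp
  have hshm : ∀ t, Measurable (sh γ l t : (Λ → G) → (Λ → G)) := fun t => by
    have := (mp_sh μ l γ t).measurable
    exact this
  -- the derivative of the integrand
  have hd : ∀ σ t, HasDerivAt (fun t => F (sh γ l t σ) * Real.exp (-(β * E (sh γ l t σ))))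
      (F' (sh γ l t σ) * Real.exp (-(β * E (sh γ l t σ))) +
        F (sh γ l t σ) * (Real.exp (-(β * E (sh γ l t σ))) * (-(β * E' (sh γ l t σ))))) t := by
    intro σ t
    exact (deriv_sh l hγ F F' dF σ t).mul (((deriv_sh l hγ E E' dE σ t).const_mul β).fun_neg.exp)
  have hbound : ∀ σ, ‖F' σ * Real.exp (-(β * E σ)) +
      F σ * (Real.exp (-(β * E σ)) * (-(β * E' σ)))‖ ≤
      (C + C * (|β| * C)) * Real.exp (|β| * C) := by
    intro σ
    obtain ⟨b1, b2, b3, b4⟩ := hb σ
    have e0 := Real.exp_pos (-(β * E σ))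
    have h1 : F' σ * Real.exp (-(β * E σ)) + F σ * (Real.exp (-(β * E σ)) * (-(β * E' σ))) =
        (F' σ + F σ * (-(β * E' σ))) * Real.exp (-(β * E σ)) := by ring
    rw [h1, norm_mul, Real.norm_eq_abs, Real.norm_eq_abs, abs_of_pos e0]
    refine mul_le_mul ?_ (hexp σ) e0.le (by positivity)
    refine (abs_add_le _ _).trans (add_le_add b2 ?_)
    rw [abs_mul, abs_neg, abs_mul]
    exact mul_le_mul b1 (mul_le_mul_of_nonneg_left b4 (abs_nonneg β)) (by positivity) hC0
  have hbF : ∀ σ, ‖F σ * Real.exp (-(β * E σ))‖ ≤ C * Real.exp (|β| * C) := by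
    intro σ
    rw [norm_mul, Real.norm_eq_abs, Real.norm_eq_abs, abs_of_pos (Real.exp_pos _)]
    exact mul_le_mul (hb σ).1 (hexp σ) (Real.exp_pos _).le hC0
  have hmG : Measurable fun σ => F σ * Real.exp (-(β * E σ)) := hF.mul hmE
  have hmG' : Measurable fun σ => F' σ * Real.exp (-(β * E σ)) +
      F σ * (Real.exp (-(β * E σ)) * (-(β * E' σ))) :=
    (hF'.mul hmE).add (hF.mul (hmE.mul (hE'.const_mul β).neg))
  have key := hasDerivAt_integral_of_dominated_loc_of_deriv_le (μ := P) (x₀ := (0 : ℝ))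
    (F := fun (t : ℝ) (σ : Λ → G) => F (sh γ l t σ) * Real.exp (-(β * E (sh γ l t σ))))
    (F' := fun (t : ℝ) (σ : Λ → G) => F' (sh γ l t σ) * Real.exp (-(β * E (sh γ l t σ))) +
        F (sh γ l t σ) * (Real.exp (-(β * E (sh γ l t σ))) * (-(β * E' (sh γ l t σ)))))
    (bound := fun _ => (C + C * (|β| * C)) * Real.exp (|β| * C))
    (Metric.ball_mem_nhds (0 : ℝ) one_pos)
    (Eventually.of_forall fun t => (hmG.comp (hshm t)).aestronglyMeasurable)
    (Integrable.of_bound (hmG.comp (hshm 0)).aestronglyMeasurable (C * Real.exp (|β| * C))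
      (Eventually.of_forall fun σ => hbF _))
    (hmG'.comp (hshm 0)).aestronglyMeasurable
    (Eventually.of_forall fun σ t _ => hbound _) (integrable_const _)
    (Eventually.of_forall fun σ t _ => hd σ t)
  have hconst : (fun t => ∫ σ, F (sh γ l t σ) * Real.exp (-(β * E (sh γ l t σ))) ∂P) =
      fun _ => ∫ σ, F σ * Real.exp (-(β * E σ)) ∂P := by
    funext t
    have h1 := mp_sh μ l γ t
    rw [← hP] at h1
    have h2 := integral_map (μ := P) (φ := sh γ l t) h1.measurable.aemeasurable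
      (f := fun σ => F σ * Real.exp (-(β * E σ))) hmG.aestronglyMeasurable
    rw [h1.map_eq] at h2
    exact h2.symm
  have h0 : ∫ σ, (F' (sh γ l 0 σ) * Real.exp (-(β * E (sh γ l 0 σ))) +
        F (sh γ l 0 σ) * (Real.exp (-(β * E (sh γ l 0 σ))) * (-(β * E' (sh γ l 0 σ))))) ∂P = 0 := by
    have h1 := key.2
    rw [hconst] at h1
    exact h1.unique (hasDerivAt_const _ _)
  simp only [sh_zero hγ] at h0
  have i1 : Integrable (fun σ => F' σ * Real.exp (-(β * E σ))) P := by
    refine Integrable.of_bound (hF'.mul hmE).aestronglyMeasurable (C * Real.exp (|β| * C))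
      (Eventually.of_forall fun σ => ?_)
    rw [norm_mul, Real.norm_eq_abs, Real.norm_eq_abs, abs_of_pos (Real.exp_pos _)]
    exact mul_le_mul (hb σ).2.1 (hexp σ) (Real.exp_pos _).le hC0
  have i2 : Integrable (fun σ => F σ * (Real.exp (-(β * E σ)) * (-(β * E' σ)))) P := by
    have h1 : Integrable (fun σ => F' σ * Real.exp (-(β * E σ)) +
        F σ * (Real.exp (-(β * E σ)) * (-(β * E' σ)))) P :=
      Integrable.of_bound hmG'.aestronglyMeasurable _ (Eventually.of_forall hbound)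
    refine (h1.sub i1).congr (Eventually.of_forall fun σ => ?_)
    simp
  rw [integral_add i1 i2] at h0
  have h2 : ∫ σ, F σ * (Real.exp (-(β * E σ)) * (-(β * E' σ))) ∂P =
      -(β * ∫ σ, F σ * E' σ * Real.exp (-(β * E σ)) ∂P) := by
    rw [← neg_mul, ← integral_const_mul]
    refine integral_congr_ae (Eventually.of_forall fun σ => ?_)
    simp only []
    ring
  rw [h2] at h0
  linarith

end Pool.Agent.H663.AG
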